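import Pool.Agent.H567.PP.Stm3
import Pool.Graph.R_seed8.Y662.GJ.JGauss

/-!
PP-18, by helper294: Jacobi sums with the conductor.
-/

set_option autoImplicit false

namespace Pool.Agent.H294.PP

open Finset

/-- splitting off the part prime to `r` -/
theorem split_aux (r : ℕ) : ∀ n : ℕ, ∀ q₁ : ℕ, 0 < n → 0 < q₁ →
    (∀ p : ℕ, p.Prime → p ∣ q₁ → p ∣ r) →
    ∃ q₁' q₂' : ℕ, 0 < q₁' ∧ 0 < q₂' ∧ q₁ * n = q₁' * q₂' ∧
      (∀ p : ℕ, p.Prime → p ∣ q₁' → p ∣ r) ∧ q₂'.Coprime r := by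
  intro n
  induction n using Nat.strong_induction_on with
  | _ n ih =>
    intro q₁ hn hq hp
    by_cases hc : n.Coprime r
    · exact ⟨q₁, n, hq, hn, rfl, hp, hc⟩
    · have hg : Nat.gcd n r ≠ 1 := hc
      obtain ⟨p, hpp, hpd⟩ := Nat.exists_prime_and_dvd hg
      have hpn : p ∣ n := hpd.trans (Nat.gcd_dvd_left _ _)
      have hpr : p ∣ r := hpd.trans (Nat.gcd_dvd_right _ _)
      obtain ⟨m, rfl⟩ := hpn
      have hm : 0 < m := Nat.pos_of_mul_pos_left hn
      have hlt : m < p * m := by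
        have := hpp.two_le
        nlinarith
      obtain ⟨a, b, h1, h2, h3, h4, h5⟩ := ih m hlt (q₁ * p) hm (Nat.mul_pos hq hpp.pos) (by
        intro l hl hd
        rcases (Nat.Prime.dvd_mul hl).1 hd with h | h
        · exact hp l hl h
        · rw [(Nat.prime_dvd_prime_iff_eq hl hpp).1 h]
          exact hpr)
      exact ⟨a, b, h1, h2, by rw [← h3]; ring, h4, h5⟩

theorem split (q r : ℕ) (hq : 0 < q) (hr : r ∣ q) :
    ∃ q₁ q₂ : ℕ, 0 < q₁ ∧ 0 < q₂ ∧ q = q₁ * q₂ ∧ q₁.Coprime q₂ ∧ r ∣ q₁ ∧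
      (∀ p : ℕ, p.Prime → p ∣ q₁ → p ∣ r) := by
  obtain ⟨a, b, h1, h2, h3, h4, h5⟩ := split_aux r q 1 hq one_pos (by
    intro p hp hd
    exact absurd (Nat.dvd_one.1 hd) hp.ne_one)
  rw [one_mul] at h3
  refine ⟨a, b, h1, h2, h3, ?_, ?_, h4⟩
  · refine Nat.Coprime.symm (Nat.coprime_of_dvd ?_)
    intro p hp hpb hpa
    have := h4 p hp hpa
    exact Nat.not_coprime_of_dvd_of_dvd hp.one_lt hpb this h5
  · rw [h3] at hr
    exact (Nat.Coprime.symm h5).dvd_of_dvd_mul_right hr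

/-- units, for levels with the same primes -/
theorem unit_iff {q r : ℕ} [NeZero q] (h : r ∣ q) (hp : ∀ p : ℕ, p.Prime → p ∣ q → p ∣ r)
    (x : ZMod q) : IsUnit x ↔ IsUnit (ZMod.castHom h (ZMod r) x) := by
  rw [← ZMod.natCast_zmod_val x, map_natCast, ZMod.isUnit_iff_coprime, ZMod.isUnit_iff_coprime]
  refine ⟨fun hc => hc.coprime_dvd_right h, fun hc => ?_⟩
  refine Nat.coprime_of_dvd ?_
  intro p hpp h1 h2
  exact Nat.not_coprime_of_dvd_of_dvd hpp.one_lt h1 (hp p hpp h2) hc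

/-- characters of the smaller level -/
theorem char_eq {q r : ℕ} [NeZero q] (h : r ∣ q) (hp : ∀ p : ℕ, p.Prime → p ∣ q → p ∣ r)
    (ξ : DirichletCharacter ℂ r) (x : ZMod q) :
    DirichletCharacter.changeLevel h ξ x = ξ (ZMod.castHom h (ZMod r) x) := by
  by_cases hu : IsUnit x
  · obtain ⟨u, rfl⟩ := hu
    rw [DirichletCharacter.changeLevel_eq_cast_of_dvd]
    rfl
  · rw [MulChar.map_nonunit _ hu, MulChar.map_nonunit _ (fun h' => hu ((unit_iff h hp x).2 h'))]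

/-- sums of pulled back functions -/
theorem sum_pull {q r : ℕ} [NeZero q] [NeZero r] (h : r ∣ q) (F : ZMod r → ℂ) :
    ∑ x : ZMod q, F (ZMod.castHom h (ZMod r) x) = ((q / r : ℕ) : ℂ) * ∑ x : ZMod r, F x := by
  obtain ⟨s, rfl⟩ := h
  rw [Pool.Agent.Y662.GJ.sum_zmod, Pool.Agent.Y662.GJ.sum_zmod,
    Nat.mul_div_cancel_left s (NeZero.pos r)]
  simp_rw [map_natCast]
  rw [Pool.Agent.Y662.GJ.sum_range_mul' r s (fun n => F (n : ZMod r))]
  have e : ∀ t u : ℕ, ((r * t + u : ℕ) : ZMod r) = (u : ZMod r) := by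
    intro t u
    push_cast
    rw [ZMod.natCast_self]
    ring
  simp_rw [e]
  rw [sum_const, card_range, nsmul_eq_mul]

/-- the sum at a level with the same primes as the conductor -/
theorem level_bound {q r : ℕ} [NeZero q] [NeZero r] (h : r ∣ q)
    (hp : ∀ p : ℕ, p.Prime → p ∣ q → p ∣ r) (χ : DirichletCharacter ℂ r) (hχ : χ.IsPrimitive)
    (ψ : DirichletCharacter ℂ q) (a : ZMod q) :
    ‖∑ x : ZMod q, χ (ZMod.castHom h (ZMod r) x) * ψ (a - x)‖ ≤ q * (1 + Real.log r) *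
      Real.sqrt ((Nat.gcd (ZMod.castHom h (ZMod r) a).val r : ℝ) / r) := by
  have hr1 : (1 : ℝ) ≤ r := by exact_mod_cast NeZero.pos r
  have hlog : 0 ≤ Real.log r := Real.log_nonneg hr1
  by_cases hf : ψ.FactorsThrough r
  · obtain ⟨h', ξ, rfl⟩ := hf
    have e1 : ∀ x : ZMod q, χ (ZMod.castHom h (ZMod r) x) *
        DirichletCharacter.changeLevel h' ξ (a - x)
        = (fun y => χ y * ξ (ZMod.castHom h (ZMod r) a - y)) (ZMod.castHom h (ZMod r) x) := by
      intro x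
      rw [char_eq h' hp ξ, map_sub]
    simp_rw [e1]
    rw [sum_pull h (fun y => χ y * ξ (ZMod.castHom h (ZMod r) a - y)), norm_mul,
      Complex.norm_natCast]
    have h2 := Pool.Agent.Y662.GJ.jac_main r χ ξ (ZMod.castHom h (ZMod r) a)
    rw [(DirichletCharacter.isPrimitive_def χ).1 hχ] at h2
    have h3 : (q : ℝ) = ((q / r : ℕ) : ℝ) * r := by
      rw [← Nat.cast_mul, Nat.div_mul_cancel h]
    calc ((q / r : ℕ) : ℝ) * ‖∑ x : ZMod r, χ x * ξ (ZMod.castHom h (ZMod r) a - x)‖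
        ≤ ((q / r : ℕ) : ℝ) * (r * (1 + Real.log r) *
          Real.sqrt ((Nat.gcd (ZMod.castHom h (ZMod r) a).val r : ℝ) / r)) :=
          mul_le_mul_of_nonneg_left h2 (Nat.cast_nonneg _)
      _ = _ := by
        rw [h3]
        ring
  · have hker := mt (DirichletCharacter.factorsThrough_iff_ker_unitsMap h).2 hf
    rw [SetLike.not_le_iff_exists] at hker
    obtain ⟨v, hv1, hv2⟩ := hker
    have hv3 : ZMod.castHom h (ZMod r) (v : ZMod q) = 1 := by
      have := congrArg (fun u : (ZMod r)ˣ => (u : ZMod r)) (MonoidHom.mem_ker.1 hv1)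
      simpa [ZMod.unitsMap_def] using this
    have hv4 : ψ (v : ZMod q) ≠ 1 := by
      intro hcon
      apply hv2
      rw [MonoidHom.mem_ker]
      ext
      rw [MulChar.coe_toUnitHom, hcon, Units.val_one]
    have hz : ∑ x : ZMod q, χ (ZMod.castHom h (ZMod r) x) * ψ (a - x) = 0 := by
      have e1 : ∑ x : ZMod q, χ (ZMod.castHom h (ZMod r) x) * ψ (a - x)
          = ∑ z : ZMod q, χ (ZMod.castHom h (ZMod r) (a - z)) * ψ z := by
        refine Fintype.sum_equiv (Equiv.subLeft a) _ _ fun x => ?_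
        rw [Equiv.subLeft_apply, sub_sub_cancel]
      rw [e1]
      have e2 : ∑ z : ZMod q, χ (ZMod.castHom h (ZMod r) (a - z)) * ψ z
          = ψ v * ∑ z : ZMod q, χ (ZMod.castHom h (ZMod r) (a - z)) * ψ z := by
        rw [mul_sum]
        symm
        refine Fintype.sum_equiv (Units.mulLeft v) _ _ fun z => ?_
        have e4 : ZMod.castHom h (ZMod r) (a - v * z) = ZMod.castHom h (ZMod r) (a - z) := by
          rw [map_sub (ZMod.castHom h (ZMod r)), map_sub (ZMod.castHom h (ZMod r)),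
            map_mul (ZMod.castHom h (ZMod r)), hv3, one_mul]
        show ψ v * (χ (ZMod.castHom h (ZMod r) (a - z)) * ψ z)
          = χ (ZMod.castHom h (ZMod r) (a - v * z)) * ψ (v * z)
        rw [e4, map_mul ψ]
        ring
      have e3 : (ψ (v : ZMod q) - 1) * ∑ z : ZMod q, χ (ZMod.castHom h (ZMod r) (a - z)) * ψ z
          = 0 := by
        rw [sub_mul, ← e2, one_mul, sub_self]
      rcases mul_eq_zero.1 e3 with h0 | h0
      · exact absurd (sub_eq_zero.1 h0) hv4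
      · exact h0
    rw [hz, norm_zero]
    positivity

/-- the component of a character at the first factor -/
noncomputable def comp1 {q₁ q₂ : ℕ} (h : q₁.Coprime q₂) (χ : DirichletCharacter ℂ (q₁ * q₂)) :
    DirichletCharacter ℂ q₁ where
  toFun x := χ ((ZMod.chineseRemainder h).symm (x, 1))
  map_one' := by
    have e : ((1 : ZMod q₁), (1 : ZMod q₂)) = 1 := rfl
    rw [e, map_one, map_one]
  map_mul' x y := by
    have e : (x * y, (1 : ZMod q₂)) = (x, 1) * (y, 1) := by rw [Prod.mk_mul_mk, one_mul]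
    rw [e, map_mul, map_mul]
  map_nonunit' x hx := by
    refine MulChar.map_nonunit _ fun hu => hx ?_
    have h2 := hu.map (ZMod.chineseRemainder h)
    rw [RingEquiv.apply_symm_apply] at h2
    exact h2.map (RingHom.fst (ZMod q₁) (ZMod q₂))

theorem comp1_apply {q₁ q₂ : ℕ} (h : q₁.Coprime q₂) (χ : DirichletCharacter ℂ (q₁ * q₂))
    (x : ZMod q₁) : comp1 h χ x = χ ((ZMod.chineseRemainder h).symm (x, 1)) := rfl

theorem comp_mul {q₁ q₂ : ℕ} (h : q₁.Coprime q₂) (χ : DirichletCharacter ℂ (q₁ * q₂))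
    (x : ZMod q₁) (y : ZMod q₂) : χ ((ZMod.chineseRemainder h).symm (x, y))
      = comp1 h χ x * χ ((ZMod.chineseRemainder h).symm (1, y)) := by
  have e : (x, y) = (x, (1 : ZMod q₂)) * ((1 : ZMod q₁), y) := by
    rw [Prod.mk_mul_mk, one_mul, mul_one]
  rw [e, map_mul, map_mul, comp1_apply]

theorem main {q₁ q₂ : ℕ} [NeZero q₁] [NeZero q₂] [NeZero (q₁ * q₂)] (h : q₁.Coprime q₂)
    (χ₁ χ₂ : DirichletCharacter ℂ (q₁ * q₂)) (hr : χ₁.conductor ∣ q₁)
    (hp : ∀ p : ℕ, p.Prime → p ∣ q₁ → p ∣ χ₁.conductor) (a : ZMod (q₁ * q₂)) :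
    ‖∑ l : ZMod (q₁ * q₂), χ₁ l * χ₂ (a - l)‖ ≤
      ((q₁ * q₂ : ℕ) : ℝ) * (1 + Real.log ((q₁ * q₂ : ℕ) : ℝ)) *
        Real.sqrt ((Nat.gcd a.val χ₁.conductor : ℝ) / χ₁.conductor) := by
  have hr0 : NeZero χ₁.conductor := ⟨χ₁.conductor_ne_zero⟩
  obtain ⟨e, he⟩ : ∃ e, e = ZMod.chineseRemainder h := ⟨_, rfl⟩
  obtain ⟨a₁, ha₁⟩ : ∃ b, b = (e a).1 := ⟨_, rfl⟩
  obtain ⟨a₂, ha₂⟩ : ∃ b, b = (e a).2 := ⟨_, rfl⟩
  have hea : e a = (a₁, a₂) := by rw [ha₁, ha₂]
  -- the compatibility of the reductions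
  have hcast : ∀ z : ZMod (q₁ * q₂), ZMod.castHom hr (ZMod χ₁.conductor) (e z).1
      = ZMod.castHom χ₁.conductor_dvd_level (ZMod χ₁.conductor) z := by
    intro z
    have : ((ZMod.castHom hr (ZMod χ₁.conductor)).comp (RingHom.fst (ZMod q₁) (ZMod q₂))).comp
        (e : ZMod (q₁ * q₂) →+* ZMod q₁ × ZMod q₂)
        = ZMod.castHom χ₁.conductor_dvd_level (ZMod χ₁.conductor) := Subsingleton.elim _ _
    exact congrArg (fun f : ZMod (q₁ * q₂) →+* ZMod χ₁.conductor => f z) this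
  -- the first component of the first character
  have hc1 : ∀ x : ZMod q₁, comp1 h χ₁ x
      = χ₁.primitiveCharacter (ZMod.castHom hr (ZMod χ₁.conductor) x) := by
    intro x
    by_cases hu : IsUnit x
    · have hu2 : IsUnit (e.symm (x, 1)) := by
        have : IsUnit ((x, (1 : ZMod q₂))) := Prod.isUnit_iff.2 ⟨hu, isUnit_one⟩
        exact this.map e.symm
      obtain ⟨v, hv⟩ := hu2
      have h1 : χ₁ (v : ZMod (q₁ * q₂)) = χ₁.primitiveCharacter
          (ZMod.castHom χ₁.conductor_dvd_level (ZMod χ₁.conductor) v) := by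
        conv_lhs => rw [← DirichletCharacter.changeLevel_primitiveCharacter χ₁]
        rw [DirichletCharacter.changeLevel_eq_cast_of_dvd]
        rfl
      rw [comp1_apply, ← he, ← hv, h1, ← hcast, hv, RingEquiv.apply_symm_apply]
    · rw [MulChar.map_nonunit _ hu, MulChar.map_nonunit _ (fun h' => hu ((unit_iff hr hp x).2 h'))]
  -- the sum factors
  have hfac : ∑ l : ZMod (q₁ * q₂), χ₁ l * χ₂ (a - l)
      = (∑ x : ZMod q₁, χ₁.primitiveCharacter (ZMod.castHom hr (ZMod χ₁.conductor) x) *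
          comp1 h χ₂ (a₁ - x)) *
        ∑ y : ZMod q₂, χ₁ (e.symm (1, y)) * χ₂ (e.symm (1, a₂ - y)) := by
    have h1 : ∑ l : ZMod (q₁ * q₂), χ₁ l * χ₂ (a - l)
        = ∑ z : ZMod q₁ × ZMod q₂, χ₁ (e.symm z) * χ₂ (e.symm (e a - z)) := by
      refine Fintype.sum_equiv e.toEquiv _ _ fun l => ?_
      show χ₁ l * χ₂ (a - l) = χ₁ (e.symm (e l)) * χ₂ (e.symm (e a - e l))
      rw [map_sub e.symm, RingEquiv.symm_apply_apply, RingEquiv.symm_apply_apply]
    rw [h1, Fintype.sum_prod_type, sum_mul_sum]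
    refine sum_congr rfl fun x _ => sum_congr rfl fun y _ => ?_
    rw [hea, Prod.mk_sub_mk, he, comp_mul h χ₁ x y, comp_mul h χ₂ (a₁ - x) (a₂ - y), hc1 x]
    ring
  have hb2 : ‖∑ y : ZMod q₂, χ₁ (e.symm (1, y)) * χ₂ (e.symm (1, a₂ - y))‖ ≤ q₂ := by
    calc ‖∑ y : ZMod q₂, χ₁ (e.symm (1, y)) * χ₂ (e.symm (1, a₂ - y))‖
        ≤ ∑ y : ZMod q₂, (1 : ℝ) := by
          refine (norm_sum_le _ _).trans (sum_le_sum fun y _ => ?_)
          rw [norm_mul]
          exact mul_le_one₀ (DirichletCharacter.norm_le_one _ _) (norm_nonneg _)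
            (DirichletCharacter.norm_le_one _ _)
      _ = q₂ := by
        rw [sum_const, card_univ, ZMod.card, nsmul_eq_mul, mul_one]
  have hb1 := level_bound hr hp χ₁.primitiveCharacter χ₁.primitiveCharacter_isPrimitive
    (comp1 h χ₂) a₁
  have hg : Nat.gcd (ZMod.castHom hr (ZMod χ₁.conductor) a₁).val χ₁.conductor
      = Nat.gcd a.val χ₁.conductor := by
    rw [ha₁, hcast a]
    have h1 : ZMod.castHom χ₁.conductor_dvd_level (ZMod χ₁.conductor) a
        = ((a.val : ℕ) : ZMod χ₁.conductor) := by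
      conv_lhs => rw [← ZMod.natCast_zmod_val a]
      rw [map_natCast]
    rw [h1, ZMod.val_natCast, ← Nat.gcd_rec, Nat.gcd_comm]
  rw [hg] at hb1
  rw [hfac, norm_mul]
  have hq1 : (1 : ℝ) ≤ χ₁.conductor := by exact_mod_cast NeZero.pos χ₁.conductor
  have hlog : Real.log χ₁.conductor ≤ Real.log ((q₁ * q₂ : ℕ) : ℝ) := by
    refine Real.log_le_log (by linarith) ?_
    exact_mod_cast Nat.le_of_dvd (NeZero.pos (q₁ * q₂)) χ₁.conductor_dvd_level
  have hs := Real.sqrt_nonneg ((Nat.gcd a.val χ₁.conductor : ℝ) / χ₁.conductor)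
  calc ‖∑ x : ZMod q₁, χ₁.primitiveCharacter (ZMod.castHom hr (ZMod χ₁.conductor) x) *
          comp1 h χ₂ (a₁ - x)‖ * ‖∑ y : ZMod q₂, χ₁ (e.symm (1, y)) * χ₂ (e.symm (1, a₂ - y))‖
      ≤ (q₁ * (1 + Real.log χ₁.conductor) *
          Real.sqrt ((Nat.gcd a.val χ₁.conductor : ℝ) / χ₁.conductor)) * q₂ :=
        mul_le_mul hb1 hb2 (norm_nonneg _) ((norm_nonneg _).trans hb1)
    _ ≤ (q₁ * (1 + Real.log ((q₁ * q₂ : ℕ) : ℝ)) *
          Real.sqrt ((Nat.gcd a.val χ₁.conductor : ℝ) / χ₁.conductor)) * q₂ := by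
        gcongr
    _ = _ := by
        push_cast
        ring

theorem jac2 : Pool.Agent.H567.PP.S_JAC2 := by
  intro q hq χ₁ χ₂ a
  obtain ⟨q₁, q₂, h1, h2, h3, h4, h5, h6⟩ := split q χ₁.conductor (NeZero.pos q)
    χ₁.conductor_dvd_level
  subst h3
  have : NeZero q₁ := ⟨h1.ne'⟩
  have : NeZero q₂ := ⟨h2.ne'⟩
  exact main h4 χ₁ χ₂ h5 h6 a

end Pool.Agent.H294.PP
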